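import Pool.Agent.R294.BB7

/-!
MP_29f955_co, Q1.  The answer is NO: the density threshold `1 - α_Φ / (ℓ + r)` for unrestricted
sumsets `B + B` is not sharp for every q.i.d. Folner sequence.

For `G = F_5^(ω)` (so `ℓ = r = 1`) and `Φ_N = (e_N + V_N) ∪ (2 e_N + V_N)`, where `V_N` is the
span of `e_0, ..., e_(N-1)`, one has `α_Φ = 1/2`, so the threshold of the known theorem is
`3/4`; but every `A` with upper density larger than `1/2` along `Φ` contains `B + B` for an
infinite set `B`.
-/

namespace Pool.Agent.Results.MP_29f955_co.NotSharp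

open Filter Topology
open scoped Classical

/-- Folner sequence of finite nonempty subsets of the abelian group `G`. -/
def IsFolner {G : Type} [AddCommGroup G] (Φ : ℕ → Finset G) : Prop :=
  (∀ N, (Φ N).Nonempty) ∧ ∀ g : G, Tendsto (fun N =>
    ((symmDiff ((Φ N).image (fun x => g + x)) (Φ N)).card : ℝ) / ((Φ N).card : ℝ)) atTop (𝓝 0)

/-- Upper density along `Φ`. -/
noncomputable def upperDensity {G : Type} (Φ : ℕ → Finset G) (A : Set G) : ℝ :=
  limsup (fun N => (((Φ N).filter (fun g => g ∈ A)).card : ℝ) / ((Φ N).card : ℝ)) atTop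

/-- The doubling ratio `α_Φ`. -/
noncomputable def doublingRatio {G : Type} [AddCommGroup G] (Φ : ℕ → Finset G) : ℝ :=
  liminf (fun N => (((Φ N).filter (fun g => 2 • g ∈ Φ N)).card : ℝ) / ((Φ N).card : ℝ)) atTop

/-- The doubling map. -/
def dbl (G : Type) [AddCommGroup G] : G →+ G := nsmulAddMonoidHom 2

/-- `A` contains `B + B` (with `b₁ = b₂` permitted) for some infinite `B`. -/
def ContainsSumset {G : Type} [AddCommGroup G] (A : Set G) : Prop :=
  ∃ B : Set G, B.Infinite ∧ ∀ b₁ ∈ B, ∀ b₂ ∈ B, b₁ + b₂ ∈ A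

/-- The statement asked about in Q1: for every infinite countable abelian group with
`ℓ = [G : 2G]` and `r = |ker D|` finite, and every Folner sequence `Φ` with `α_Φ > 0`, there is
a set `A` of upper density exactly `1 - α_Φ / (ℓ + r)` which contains `B + B` for no
infinite `B`. -/
def Sharpness : Prop :=
  ∀ (G : Type) [AddCommGroup G] [Countable G] [Infinite G],
    (dbl G).range.FiniteIndex → Finite (dbl G).ker →
    ∀ Φ : ℕ → Finset G, IsFolner Φ → 0 < doublingRatio Φ →
      ∃ A : Set G, upperDensity Φ A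
        = 1 - doublingRatio Φ / (((dbl G).range.index : ℝ) + (Nat.card (dbl G).ker : ℝ)) ∧
        ¬ ContainsSumset A

open Pool.Agent.R294.BB

/-- the coset `t e_N + V_N` -/
noncomputable def lev (t : ZMod 5) (N : ℕ) : Finset G :=
  (Finset.univ : Finset (Fin N → ZMod 5)).image (fun a => Finsupp.single N t + io N a)

/-- the Folner sequence -/
noncomputable def Phi (N : ℕ) : Finset G := lev 1 N ∪ lev 2 N

theorem lev_coord {t : ZMod 5} {N : ℕ} {g : G} (h : g ∈ lev t N) : g N = t := by
  obtain ⟨a, _, rfl⟩ := Finset.mem_image.1 h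
  rw [Finsupp.add_apply, Finsupp.single_eq_same, io_supp N a N le_rfl, add_zero]

theorem lev_inj (t : ZMod 5) (N : ℕ) :
    Function.Injective (fun a : Fin N → ZMod 5 => Finsupp.single N t + io N a) := by
  intro a b h
  exact io_inj N (add_left_cancel h)

theorem lev_card (t : ZMod 5) (N : ℕ) : (lev t N).card = 5 ^ N := by
  unfold lev
  rw [Finset.card_image_of_injective _ (lev_inj t N), card_V]

theorem lev_disj (N : ℕ) : Disjoint (lev 1 N) (lev 2 N) := by
  rw [Finset.disjoint_left]
  intro g h1 h2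
  have h3 := (lev_coord h1).symm.trans (lev_coord h2)
  exact absurd h3 (by decide)

theorem Phi_card (N : ℕ) : (Phi N).card = 2 * 5 ^ N := by
  unfold Phi
  rw [Finset.card_union_of_disjoint (lev_disj N), lev_card, lev_card]
  ring

theorem mem_lev {t : ZMod 5} {N : ℕ} {g : G} :
    g ∈ lev t N ↔ ∃ a : Fin N → ZMod 5, Finsupp.single N t + io N a = g := by
  unfold lev
  rw [Finset.mem_image]
  constructor
  · rintro ⟨a, _, h⟩
    exact ⟨a, h⟩
  · rintro ⟨a, h⟩
    exact ⟨a, Finset.mem_univ _, h⟩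

theorem mem_Phi {N : ℕ} {g : G} : g ∈ Phi N ↔ g ∈ lev 1 N ∨ g ∈ lev 2 N := by
  unfold Phi
  rw [Finset.mem_union]

theorem lev_add {t : ZMod 5} {N : ℕ} {g x : G} (hg : ∀ i, N ≤ i → g i = 0) (hx : x ∈ lev t N) :
    g + x ∈ lev t N := by
  rw [mem_lev] at hx ⊢
  obtain ⟨a, rfl⟩ := hx
  obtain ⟨c, rfl⟩ := exists_io hg
  exact ⟨c + a, by rw [io_add]; abel⟩

theorem Phi_add {N : ℕ} {g x : G} (hg : ∀ i, N ≤ i → g i = 0) (hx : x ∈ Phi N) :
    g + x ∈ Phi N := by
  rw [mem_Phi] at hx ⊢
  exact hx.imp (lev_add hg) (lev_add hg)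

theorem Phi_shift {inst : DecidableEq G} {N : ℕ} {g : G} (hg : ∀ i, N ≤ i → g i = 0) :
    @Finset.image G G inst (fun x => g + x) (Phi N) = Phi N := by
  ext x
  rw [Finset.mem_image]
  constructor
  · rintro ⟨y, hy, rfl⟩
    exact Phi_add hg hy
  · intro hx
    refine ⟨-g + x, Phi_add (fun i hi => ?_) hx, by abel⟩
    rw [Finsupp.neg_apply, hg i hi, neg_zero]

theorem card_sd {α : Type} {inst : DecidableEq α} (s : Finset α) : (symmDiff s s).card = 0 := by
  rw [symmDiff_self]
  rfl

theorem Phi_folner : IsFolner Phi := by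
  constructor
  · intro N
    rw [← Finset.card_pos, Phi_card]
    positivity
  · intro g
    obtain ⟨M, hM⟩ := exists_bound g
    refine tendsto_const_nhds.congr' ?_
    filter_upwards [eventually_ge_atTop M] with N hN
    have hg : ∀ i, N ≤ i → g i = 0 := fun i hi => hM i (hN.trans hi)
    rw [Phi_shift hg, card_sd]
    simp

theorem dbl_lev {N : ℕ} {g : G} (h : g ∈ lev 1 N) : 2 • g ∈ lev 2 N := by
  obtain ⟨a, _, rfl⟩ := Finset.mem_image.1 h
  refine Finset.mem_image.2 ⟨a + a, Finset.mem_univ _, ?_⟩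
  simp only [io_add, two_nsmul]
  have : (Finsupp.single N 2 : G) = Finsupp.single N 1 + Finsupp.single N 1 := by
    rw [← Finsupp.single_add]; rfl
  rw [this]; abel

theorem Phi_dbl (N : ℕ) [DecidablePred (fun g => 2 • g ∈ Phi N)] :
    (Phi N).filter (fun g => 2 • g ∈ Phi N) = lev 1 N := by
  ext g
  rw [Finset.mem_filter]
  constructor
  · rintro ⟨h1, h2⟩
    rcases Finset.mem_union.1 h1 with h | h
    · exact h
    · exfalso
      have h3 : (2 • g) N = 2 • (2 : ZMod 5) := by
        rw [Finsupp.smul_apply, lev_coord h]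
      rcases Finset.mem_union.1 h2 with h4 | h4
      · have := h3.symm.trans (lev_coord h4)
        exact absurd this (by decide)
      · have := h3.symm.trans (lev_coord h4)
        exact absurd this (by decide)
  · intro h
    exact ⟨Finset.mem_union_left _ h, Finset.mem_union_right _ (dbl_lev h)⟩

theorem Phi_ratio : doublingRatio Phi = 1 / 2 := by
  unfold doublingRatio
  have h : ∀ N : ℕ, ((5 ^ N : ℕ) : ℝ) / ((2 * 5 ^ N : ℕ) : ℝ) = 1 / 2 := by
    intro N
    push_cast
    have : (5 : ℝ) ^ N ≠ 0 := by positivity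
    field_simp
  simp_rw [Phi_dbl, lev_card, Phi_card, h]
  exact liminf_const _

theorem six_nsmul (g : G) : 2 • (3 • g) = g := by
  rw [← mul_nsmul]
  have : (3 * 2) • g = 5 • g + g := by rw [← succ_nsmul]
  rw [this, five_nsmul, zero_add]

theorem dbl_range : (dbl G).range = ⊤ := by
  rw [AddMonoidHom.range_eq_top]
  intro g
  exact ⟨3 • g, six_nsmul g⟩

theorem dbl_ker : (dbl G).ker = ⊥ := by
  rw [AddMonoidHom.ker_eq_bot_iff]
  intro g h hgh
  have h1 : 2 • g = 2 • h := hgh
  have h2 : 3 • (2 • g) = 3 • (2 • h) := by rw [h1]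
  have h3 : ∀ g : G, 3 • (2 • g) = g := by
    intro g
    rw [← mul_nsmul, mul_comm, mul_nsmul]
    exact six_nsmul g
  rwa [h3, h3] at h2

theorem card_filter_eq (A : Set G) (N : ℕ) :
    (((Phi N).filter (fun g => g ∈ A)).card : ℝ)
      = 5 ^ N * av N (fun x => ic A x + ic A (x + x)) (Finsupp.single N 1) := by
  have h1 : (((Phi N).filter (fun g => g ∈ A)).card : ℝ) = ∑ g ∈ Phi N, ic A g := by
    unfold ic
    rw [Finset.sum_boole]
  have h2 : ∀ t : ZMod 5, ∑ g ∈ lev t N, ic A g
      = ∑ a : Fin N → ZMod 5, ic A (Finsupp.single N t + io N a) := by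
    intro t
    unfold lev
    rw [Finset.sum_image (fun a _ b _ h => lev_inj t N h)]
  have h3 : ∑ a : Fin N → ZMod 5, ic A (Finsupp.single N 2 + io N a)
      = ∑ a : Fin N → ZMod 5, ic A (Finsupp.single N 1 + io N a + (Finsupp.single N 1 + io N a)) := by
    have hb : Function.Bijective (fun a : Fin N → ZMod 5 => a + a) := by
      rw [← Finite.injective_iff_bijective]
      intro a b h
      funext i
      have h4 : a i + a i = b i + b i := congrFun h i
      have h5 : ∀ x y : ZMod 5, x + x = y + y → x = y := by decide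
      exact h5 _ _ h4
    rw [← Equiv.sum_comp (Equiv.ofBijective _ hb)]
    apply Finset.sum_congr rfl
    intro a _
    rw [Equiv.ofBijective_apply, io_add]
    have : (Finsupp.single N 2 : G) = Finsupp.single N 1 + Finsupp.single N 1 := by
      rw [← Finsupp.single_add]; rfl
    rw [this]
    congr 1; abel
  have h5 : (5 : ℝ) ^ N ≠ 0 := by positivity
  rw [h1]
  unfold Phi av
  rw [Finset.sum_union (lev_disj N), h2, h2, h3, ← Finset.sum_add_distrib, ← mul_assoc,
    mul_inv_cancel₀ h5, one_mul]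

/-- Every set of upper density larger than `1/2` along `Phi` contains `B + B`. -/
theorem dense_contains (A : Set G) (hA : 1 / 2 < upperDensity Phi A) : ContainsSumset A := by
  obtain ⟨c, hc1, hc2⟩ := exists_between hA
  have hfr := frequently_lt_of_lt_limsup (by
    refine ⟨0, ?_⟩
    rintro a ha
    rw [eventually_map] at ha
    obtain ⟨N, hN⟩ := ha.exists
    exact (by positivity : (0 : ℝ) ≤ _).trans hN) hc2
  have hinf := Nat.frequently_atTop_iff_infinite.1 hfr
  obtain ⟨B, hB, hBB⟩ := sumset_of_dense A hinf (c := 2 * c) (by linarith) (fun N hN => by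
    have h1 : c < (((Phi N).filter (fun g => g ∈ A)).card : ℝ) / ((Phi N).card : ℝ) := hN
    have h5 : (0 : ℝ) < 5 ^ N := by positivity
    rw [card_filter_eq, Phi_card, lt_div_iff₀ (by positivity)] at h1
    push_cast at h1
    nlinarith)
  exact ⟨B, hB, hBB⟩

/-- **MP_29f955_co, Q1, negative answer.**  The sharpness statement fails; explicitly, on the
group `F_5^(ω)` (where `ℓ = r = 1`) there is a Folner sequence `Φ` with `α_Φ = 1/2`, so that
`1 - α_Φ / (ℓ + r) = 3/4`, for which every set of upper density larger than `1/2` contains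
`B + B` for an infinite `B`. -/
theorem result : ¬ Sharpness ∧
    ∃ Φ : ℕ → Finset (ℕ →₀ ZMod 5), IsFolner Φ ∧ doublingRatio Φ = 1 / 2 ∧
      (dbl (ℕ →₀ ZMod 5)).range.index = 1 ∧ Nat.card (dbl (ℕ →₀ ZMod 5)).ker = 1 ∧
      ∀ A : Set (ℕ →₀ ZMod 5), 1 / 2 < upperDensity Φ A → ContainsSumset A := by
  have hi : (dbl (ℕ →₀ ZMod 5)).range.index = 1 := by
    rw [dbl_range]; exact AddSubgroup.index_top
  have hk : Nat.card (dbl (ℕ →₀ ZMod 5)).ker = 1 := by
    rw [dbl_ker]; exact AddSubgroup.card_bot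
  refine ⟨?_, Phi, Phi_folner, Phi_ratio, hi, hk, dense_contains⟩
  intro h
  have hc : Countable G := inferInstance
  obtain ⟨A, hA, hA2⟩ := h G (by rw [dbl_range]; infer_instance)
    (by rw [dbl_ker]; infer_instance) Phi Phi_folner (by rw [Phi_ratio]; norm_num)
  apply hA2
  apply dense_contains
  rw [hA, Phi_ratio, hi, hk]
  norm_num

end Pool.Agent.Results.MP_29f955_co.NotSharp
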